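import Pool.Agent.PLX.StmtsA

/-!
Squad PLX (MP_1fc801_co), row POL: integer equations of bounded height.
-/

set_option autoImplicit false

namespace Pool.Agent.PLX.H70

open Module Pool.Agent.PLX

/-- pigeonhole for the sums of the multiples -/
theorem pigeon {B : Type} [AddCommGroup B] [Module ℚ B] {E : Type} [NormedAddCommGroup E]
    [NormedSpace ℝ E] (hsep : SepStmt)
    (f : B →+ E) (V : AddSubgroup B) (e : ℕ) (K : ℝ) (x : B) (hD : Dsc f V)
    (hfin : FiniteDimensional ℚ B) (hrk : finrank ℚ B ≤ e) (hK : 1 ≤ K) (hxV : x ∈ V)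
    (hx0 : x ≠ 0) (hmin : ∀ y ∈ V, y ≠ 0 → ‖f x‖ ≤ ‖f y‖) (y : Fin (e + 1) → B)
    (hyV : ∀ q, y q ∈ V) (hyf : ∀ q, ‖f (y q)‖ ≤ K * ‖f x‖) (N : ℕ)
    (hN : (3 * ((e : ℝ) + 1) * K) ^ e < (N : ℝ) + 1) :
    ∃ n n' : Fin (e + 1) → Fin (N + 1), n ≠ n' ∧
      ∑ q, (n q : ℕ) • y q = ∑ q, (n' q : ℕ) • y q := by
  classical
  have ht : 0 < ‖f x‖ := norm_pos hD hxV hx0
  have he0 : (0 : ℝ) ≤ e := Nat.cast_nonneg e
  have hN0 : (0 : ℝ) ≤ N := Nat.cast_nonneg N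
  have hK0 : (0 : ℝ) < K := lt_of_lt_of_le one_pos hK
  set R : ℝ := ((e : ℝ) + 1) * N * K * ‖f x‖ with hR
  have hR0 : 0 ≤ R := by positivity
  have hcnt : (cnt f V R : ℝ) ≤ (1 + 2 * R / ‖f x‖) ^ e :=
    hsep B E f V R ‖f x‖ e hD hR0 ht hmin (le_trans (Submodule.finrank_le _) hrk)
  have hlt : (cnt f V R : ℝ) < ((N : ℝ) + 1) ^ (e + 1) := by
    refine lt_of_le_of_lt hcnt ?_
    have h1 : 2 * R / ‖f x‖ = 2 * (((e : ℝ) + 1) * N * K) := by
      rw [hR]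
      field_simp
    rw [h1]
    have h2 : 1 + 2 * (((e : ℝ) + 1) * N * K) ≤ (3 * ((e : ℝ) + 1) * K) * ((N : ℝ) + 1) := by
      have h3 : 1 ≤ ((e : ℝ) + 1) * K := by nlinarith
      have h4 : 0 ≤ ((e : ℝ) + 1) * K * N := by positivity
      nlinarith
    have h5 : 0 ≤ 1 + 2 * (((e : ℝ) + 1) * N * K) := by positivity
    calc (1 + 2 * (((e : ℝ) + 1) * N * K)) ^ e
        ≤ ((3 * ((e : ℝ) + 1) * K) * ((N : ℝ) + 1)) ^ e := pow_le_pow_left₀ h5 h2 e
      _ = (3 * ((e : ℝ) + 1) * K) ^ e * ((N : ℝ) + 1) ^ e := mul_pow _ _ _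
      _ < ((N : ℝ) + 1) * ((N : ℝ) + 1) ^ e := by
          refine mul_lt_mul_of_pos_right hN ?_
          positivity
      _ = ((N : ℝ) + 1) ^ (e + 1) := by rw [pow_succ]; ring
  have hcard : (bl f V R).card < (Finset.univ : Finset (Fin (e + 1) → Fin (N + 1))).card := by
    have h1 : (Finset.univ : Finset (Fin (e + 1) → Fin (N + 1))).card = (N + 1) ^ (e + 1) := by
      simp
    rw [h1]
    have h2 : ((bl f V R).card : ℝ) < (((N + 1) ^ (e + 1) : ℕ) : ℝ) := by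
      push_cast
      exact hlt
    exact_mod_cast h2
  have hmaps : ∀ n ∈ (Finset.univ : Finset (Fin (e + 1) → Fin (N + 1))),
      (∑ q, (n q : ℕ) • y q) ∈ bl f V R := by
    intro n _
    rw [mem_bl hD]
    refine ⟨V.sum_mem fun q _ => V.nsmul_mem (hyV q) _, ?_⟩
    rw [map_sum]
    refine (norm_sum_le _ _).trans ?_
    have h1 : ∀ q ∈ (Finset.univ : Finset (Fin (e + 1))),
        ‖f ((n q : ℕ) • y q)‖ ≤ N * (K * ‖f x‖) := by
      intro q _
      rw [norm_f_nat]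
      have h2 : ((n q : ℕ) : ℝ) ≤ N := by
        exact_mod_cast Nat.lt_succ_iff.1 (n q).2
      exact mul_le_mul h2 (hyf q) (norm_nonneg _) hN0
    refine (Finset.sum_le_sum h1).trans ?_
    rw [Finset.sum_const, Finset.card_univ, Fintype.card_fin, nsmul_eq_mul, hR]
    push_cast
    exact le_of_eq (by ring)
  obtain ⟨n, -, n', -, hne, heq⟩ := Finset.exists_ne_map_eq_of_card_lt_of_maps_to hcard hmaps
  exact ⟨n, n', hne, heq⟩

theorem pol (hsep : SepStmt) : PolStmt := by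
  classical
  intro B _ _ E _ _ f V l e A K w α x hD hfin hrk hK hxV hlx hmin heig hmlt hA
  have hx0 : x ≠ 0 := by
    intro h
    exact hlx (by rw [h, map_zero])
  have hm : ∀ q : Fin (e + 1), ∃ c : ℕ, 1 ≤ c ∧ (c : ℝ) ≤ K ∧
      c • (α ^ (q : ℕ)) x ∈ V ∧ ‖f (c • (α ^ (q : ℕ)) x)‖ ≤ K * ‖f x‖ :=
    fun q => hmlt q (Nat.lt_succ_iff.1 q.2)
  choose c hc1 hcK hcV hcf using hm
  have hK0 : (0 : ℝ) < K := lt_of_lt_of_le one_pos hK
  have he0 : (0 : ℝ) ≤ e := Nat.cast_nonneg e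
  have hpow : ∀ q : ℕ, l ((α ^ q) x) = w ^ q * l x := by
    intro q
    induction q with
    | zero => simp
    | succ q ih =>
      rw [pow_succ', Module.End.mul_apply, heig, ih, pow_succ]
      ring
  set N : ℕ := ⌊(3 * ((e : ℝ) + 1) * K) ^ e⌋₊ with hNdef
  have hN : (3 * ((e : ℝ) + 1) * K) ^ e < (N : ℝ) + 1 := Nat.lt_floor_add_one _
  have hN' : (N : ℝ) ≤ (3 * ((e : ℝ) + 1) * K) ^ e := Nat.floor_le (by positivity)
  obtain ⟨n, n', hne, heq⟩ := pigeon hsep f V e K x hD hfin hrk hK hxV hx0 hmin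
    (fun q => c q • (α ^ (q : ℕ)) x) hcV hcf N hN
  -- the polynomial
  let a : Fin (e + 1) → ℤ := fun q => (((n q : ℕ) : ℤ) - ((n' q : ℕ) : ℤ)) * (c q : ℤ)
  let p : Polynomial ℤ := ∑ q : Fin (e + 1), Polynomial.monomial (q : ℕ) (a q)
  have hcoef : ∀ i : ℕ, p.coeff i = if h : i < e + 1 then a ⟨i, h⟩ else 0 := by
    intro i
    have h1 : p.coeff i = ∑ q : Fin (e + 1), if (q : ℕ) = i then a q else 0 := by
      simp only [p, Polynomial.finsetSum_coeff, Polynomial.coeff_monomial]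
    rw [h1]
    split_ifs with h
    · rw [Finset.sum_eq_single ⟨i, h⟩]
      · simp
      · intro q _ hq
        rw [if_neg]
        intro h2
        exact hq (Fin.ext h2)
      · intro h2
        exact absurd (Finset.mem_univ _) h2
    · refine Finset.sum_eq_zero fun q _ => ?_
      rw [if_neg]
      intro h2
      exact h (h2 ▸ q.2)
  refine ⟨p, ?_, ?_, ?_, ?_⟩
  · intro h0
    apply hne
    funext q
    have h1 := hcoef (q : ℕ)
    rw [h0, Polynomial.coeff_zero, dif_pos q.2] at h1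
    have h2 : a q = 0 := h1.symm
    have h3 : (((n q : ℕ) : ℤ) - ((n' q : ℕ) : ℤ)) * (c q : ℤ) = 0 := h2
    have h4 : (c q : ℤ) ≠ 0 := by
      have := hc1 q
      omega
    have h5 := (mul_eq_zero.1 h3).resolve_right h4
    apply Fin.ext
    omega
  · rw [Polynomial.natDegree_le_iff_coeff_eq_zero]
    intro i hi
    rw [hcoef, dif_neg (by omega)]
  · intro i
    rw [hcoef]
    split_ifs with h
    · have h1 : |(a ⟨i, h⟩ : ℝ)| ≤ A := by
        have h2 : (a ⟨i, h⟩ : ℝ) =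
            (((n ⟨i, h⟩ : ℕ) : ℝ) - ((n' ⟨i, h⟩ : ℕ) : ℝ)) * (c ⟨i, h⟩ : ℝ) := by
          simp only [a]
          push_cast
          ring
        rw [h2, abs_mul, Nat.abs_cast]
        have h3 : |((n ⟨i, h⟩ : ℕ) : ℝ) - ((n' ⟨i, h⟩ : ℕ) : ℝ)| ≤ N := by
          have h4 : ((n ⟨i, h⟩ : ℕ) : ℝ) ≤ N := by
            exact_mod_cast Nat.lt_succ_iff.1 (n ⟨i, h⟩).2
          have h5 : ((n' ⟨i, h⟩ : ℕ) : ℝ) ≤ N := by
            exact_mod_cast Nat.lt_succ_iff.1 (n' ⟨i, h⟩).2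
          have h6 : (0 : ℝ) ≤ ((n ⟨i, h⟩ : ℕ) : ℝ) := Nat.cast_nonneg _
          have h7 : (0 : ℝ) ≤ ((n' ⟨i, h⟩ : ℕ) : ℝ) := Nat.cast_nonneg _
          rw [abs_le]
          constructor <;> linarith
        calc |((n ⟨i, h⟩ : ℕ) : ℝ) - ((n' ⟨i, h⟩ : ℕ) : ℝ)| * (c ⟨i, h⟩ : ℝ)
            ≤ N * K := mul_le_mul h3 (hcK _) (Nat.cast_nonneg _) (Nat.cast_nonneg _)
          _ ≤ (3 * ((e : ℝ) + 1) * K) ^ e * K := mul_le_mul_of_nonneg_right hN' hK0.le
          _ ≤ A := hA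
      exact_mod_cast h1
    · simp
  · -- the root
    have h1 : Polynomial.aeval w p = ∑ q : Fin (e + 1), (a q : ℝ) * w ^ (q : ℕ) := by
      simp only [p, map_sum, Polynomial.aeval_monomial]
      rfl
    rw [h1]
    have h2 : (∑ q : Fin (e + 1), (a q : ℝ) * w ^ (q : ℕ)) * l x = 0 := by
      rw [Finset.sum_mul]
      have h4 := congrArg l heq
      rw [map_sum, map_sum] at h4
      have h5 : ∀ (m : ℕ) (q : Fin (e + 1)), l (m • c q • (α ^ (q : ℕ)) x) =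
          (m : ℝ) * (c q : ℝ) * w ^ (q : ℕ) * l x := by
        intro m q
        rw [map_nsmul, map_nsmul, hpow, nsmul_eq_mul, nsmul_eq_mul]
        ring
      have h3 : ∑ q : Fin (e + 1), (a q : ℝ) * w ^ (q : ℕ) * l x =
          ∑ q : Fin (e + 1), (l ((n q : ℕ) • c q • (α ^ (q : ℕ)) x) -
            l ((n' q : ℕ) • c q • (α ^ (q : ℕ)) x)) := by
        refine Finset.sum_congr rfl fun q _ => ?_
        rw [h5, h5]
        simp only [a]
        push_cast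
        ring
      rw [h3, Finset.sum_sub_distrib, h4, sub_self]
    exact (mul_eq_zero.1 h2).resolve_right hlx

end Pool.Agent.PLX.H70
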